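import Pool.Agent.K89.Res

/-!
`SL_k(ℤ)`, `k ≥ 3`: a normal subgroup which contains the elementary matrices `≡ 1` modulo `M`
contains all matrices `≡ 1` modulo `M` (Mennicke). Definitions.
-/

set_option autoImplicit false

namespace Pool.Agent.MNK

open Pool.Agent.TAU (SL el)

/-- the pairs `(a, b)` of the Mennicke symbol of level `M` -/
def W (M a b : ℤ) : Prop := IsCoprime a b ∧ M ∣ b ∧ M ∣ a - 1

/-- `≡ 1` modulo `M` -/
def Cg (M : ℤ) {k : ℕ} (x : SL k) : Prop :=
  ∀ i j : Fin k, M ∣ x.1 i j - (1 : Matrix (Fin k) (Fin k) ℤ) i j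

/-- the block in the rows and columns 1, 2 -/
def b12 (a b c d : ℤ) (h : a * d - b * c = 1) : SL 3 :=
  ⟨!![a, b, 0; c, d, 0; 0, 0, 1], by rw [Matrix.det_fin_three]; simp; linarith⟩

/-- the block in the rows and columns 1, 3 -/
def b13 (a b c d : ℤ) (h : a * d - b * c = 1) : SL 3 :=
  ⟨!![a, 0, b; 0, 1, 0; c, 0, d], by rw [Matrix.det_fin_three]; simp; linarith⟩

/-- the block in the rows and columns 2, 3 -/
def b23 (a b c d : ℤ) (h : a * d - b * c = 1) : SL 3 :=
  ⟨!![1, 0, 0; 0, a, b; 0, c, d], by rw [Matrix.det_fin_three]; simp; linarith⟩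

/-- a homomorphism from `SL_3(ℤ)` which kills the elementary matrices `≡ 1` modulo `M` and sends
the matrices `≡ 1` modulo `M` to central elements -/
structure Adm {G : Type} [Group G] (M : ℤ) (q : SL 3 →* G) : Prop where
  el : ∀ (i j : Fin 3) (h : i ≠ j) (x : ℤ), q (Pool.Agent.TAU.el i j h (M * x)) = 1
  cen : ∀ g : SL 3, Cg M g → ∀ x : SL 3, q (g * x) = q (x * g)

end Pool.Agent.MNK
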